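import Pool.Agent.Helper39.CR.GoalsT

/-! CAR3-TFIX: fixed points of one element of the circle. -/

open scoped ComplexOrder
open Filter Topology

namespace Pool.Agent.Helper43.CR

open Pool.Agent.Helper34.CAR Pool.Agent.Helper39.CR

theorem mean_tendsto (r : ℂ) (hr : ‖r‖ = 1) :
    Tendsto (fun N : ℕ => (N : ℂ)⁻¹ * ∑ k ∈ Finset.range N, r ^ k) atTop
      (𝓝 (if r = 1 then 1 else 0)) := by
  split_ifs with h
  · subst h
    refine tendsto_const_nhds.congr' ?_
    filter_upwards [eventually_gt_atTop 0] with N hN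
    have : (N : ℂ) ≠ 0 := by exact_mod_cast hN.ne'
    simp [this]
  · have h1 : (0 : ℝ) < ‖r - 1‖ := norm_pos_iff.2 (sub_ne_zero.2 h)
    refine squeeze_zero_norm (a := fun N : ℕ => (2 / ‖r - 1‖) / (N : ℝ)) (fun N => ?_)
      (tendsto_const_div_atTop_nhds_zero_nat _)
    have h2 : ‖∑ k ∈ Finset.range N, r ^ k‖ ≤ 2 / ‖r - 1‖ := by
      rw [le_div_iff₀ h1, ← norm_mul, geom_sum_mul]
      calc ‖r ^ N - 1‖ ≤ ‖r ^ N‖ + ‖(1 : ℂ)‖ := norm_sub_le _ _
        _ = 2 := by rw [norm_pow, hr, one_pow, norm_one]; norm_num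
    rw [norm_mul, norm_inv, Complex.norm_natCast, mul_comm, ← div_eq_mul_inv]
    gcongr

/-- The factor `z^p (z^q)*`. -/
noncomputable def rr (z : Circle) (p q : ℕ) : ℂ := (z : ℂ) ^ p * star ((z : ℂ) ^ q)

theorem rr_self (z : Circle) (q : ℕ) : (z : ℂ) ^ q * star ((z : ℂ) ^ q) = 1 := by
  have : (z : ℂ) ^ q = ((z ^ q : Circle) : ℂ) := by simp
  rw [this, Complex.star_def, Complex.mul_conj, Complex.normSq_eq_norm_sq, Circle.norm_coe]
  simp

theorem norm_rr (z : Circle) (p q : ℕ) : ‖rr z p q‖ = 1 := by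
  simp [rr]

theorem rr_eq_one (z : Circle) (p q : ℕ) :
    rr z p q = 1 ↔ (p : ZMod (orderOf z)) = (q : ZMod (orderOf z)) := by
  rw [ZMod.natCast_eq_natCast_iff, ← pow_eq_pow_iff_modEq]
  constructor
  · intro h
    have h3 : (z : ℂ) ^ p * (star ((z : ℂ) ^ q) * (z : ℂ) ^ q) = (z : ℂ) ^ q := by
      rw [← mul_assoc]
      change rr z p q * _ = _
      rw [h, one_mul]
    rw [mul_comm (star ((z : ℂ) ^ q)), rr_self, mul_one] at h3
    apply Circle.coe_injective
    rw [Circle.coe_pow, Circle.coe_pow, h3]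
  · intro h
    have h2 : (z : ℂ) ^ p = (z : ℂ) ^ q := by rw [← Circle.coe_pow, ← Circle.coe_pow, h]
    rw [rr, h2, rr_self]

theorem rr_pow (z : Circle) (p q k : ℕ) :
    (((z ^ k : Circle) : ℂ)) ^ p * star (((z ^ k : Circle) : ℂ) ^ q) = rr z p q ^ k := by
  rw [rr, mul_pow, ← star_pow, Circle.coe_pow]
  ring_nf

theorem act_pow {A : Type} [CStarAlgebra A] (γ : CircleAction A) (z : Circle) (b : A)
    (h : γ.act z b = b) (k : ℕ) : γ.act (z ^ k) b = b := by
  induction k with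
  | zero => rw [pow_zero, γ.one]
  | succ k ih => rw [pow_succ, γ.mul, h, ih]

theorem tfix : S_TFIX := by
  intro B _ θ s L _ ι hL γ hγ z
  refine ⟨?_, ?_⟩
  · intro i a ha w hw
    rw [Set.mem_singleton_iff] at hw
    subst hw
    rw [hγ]
    congr 1
    ext x y
    rw [Mt.of_apply]
    by_cases h : wz s (orderOf w) i x = wz s (orderOf w) i y
    · have h1 : rr w (s.wt i x) (s.wt i y) = 1 := (rr_eq_one w _ _).2 h
      change rr w (s.wt i x) (s.wt i y) • a x y = a x y
      rw [h1, one_smul]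
    · rw [ha x y h, smul_zero]
  · intro b hb ε hε
    have hb' : γ.act z b = b := hb z rfl
    obtain ⟨c, hc, hbc⟩ := Metric.mem_closure_iff.1 (hL.dense b) ε hε
    obtain ⟨i, a, rfl⟩ := Set.mem_iUnion.1 hc
    classical
    let a' : s.A i := Mt.of fun x y =>
      if wz s (orderOf z) i x = wz s (orderOf z) i y then a x y else 0
    refine ⟨i, a', fun x y h => if_neg h, ?_⟩
    let E : ℕ → s.A i := fun N => (N : ℂ)⁻¹ • ∑ k ∈ Finset.range N, (Mt.of fun x y =>
        ((((z ^ k : Circle) : ℂ) ^ s.wt i x * star (((z ^ k : Circle) : ℂ) ^ s.wt i y)) • a x y) :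
          s.A i)
    have hE : ∀ N : ℕ, 0 < N → ‖b - ι i (E N)‖ ≤ ‖b - ι i a‖ := by
      intro N hN
      have hn' : (N : ℂ) ≠ 0 := by exact_mod_cast hN.ne'
      have e2 : ι i (E N) = (N : ℂ)⁻¹ • ∑ k ∈ Finset.range N, γ.act (z ^ k) (ι i a) := by
        simp only [E]
        rw [map_smul, map_sum]
        congr 1
        exact Finset.sum_congr rfl fun k _ => (hγ _ _ _).symm
      have e3 : b = (N : ℂ)⁻¹ • ∑ k ∈ Finset.range N, γ.act (z ^ k) b := by
        rw [Finset.sum_congr rfl fun k _ => act_pow γ z b hb' k, Finset.sum_const,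
          Finset.card_range, ← Nat.cast_smul_eq_nsmul ℂ, smul_smul, inv_mul_cancel₀ hn', one_smul]
      have e4 : b - ι i (E N) = (N : ℂ)⁻¹ • ∑ k ∈ Finset.range N, γ.act (z ^ k) (b - ι i a) := by
        conv_lhs => rw [e2]
        nth_rewrite 1 [e3]
        rw [← smul_sub, ← Finset.sum_sub_distrib]
        congr 1
        exact Finset.sum_congr rfl fun k _ => (map_sub _ _ _).symm
      rw [e4, norm_smul, norm_inv, Complex.norm_natCast]
      have e5 : ‖∑ k ∈ Finset.range N, γ.act (z ^ k) (b - ι i a)‖ ≤ N * ‖b - ι i a‖ := by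
        refine (norm_sum_le _ _).trans ?_
        calc ∑ k ∈ Finset.range N, ‖γ.act (z ^ k) (b - ι i a)‖
            ≤ ∑ k ∈ Finset.range N, ‖b - ι i a‖ :=
              Finset.sum_le_sum fun k _ => NonUnitalStarAlgHom.norm_apply_le _ _
          _ = _ := by simp
      have hn0 : (0 : ℝ) < N := by exact_mod_cast hN
      calc (N : ℝ)⁻¹ * ‖∑ k ∈ Finset.range N, γ.act (z ^ k) (b - ι i a)‖
          ≤ (N : ℝ)⁻¹ * (N * ‖b - ι i a‖) := by gcongr
        _ = ‖b - ι i a‖ := by field_simp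
    have hlim : Tendsto (fun N => ‖E N - a'‖) atTop (𝓝 0) := by
      refine squeeze_zero (g := fun N : ℕ => ∑ x, ∑ y,
        ‖(N : ℂ)⁻¹ * ∑ k ∈ Finset.range N, rr z (s.wt i x) (s.wt i y) ^ k -
          (if rr z (s.wt i x) (s.wt i y) = 1 then 1 else 0)‖ * ‖a x y‖)
        (fun N => norm_nonneg _) (fun N => ?_) ?_
      · refine (Mt.norm_le_sum _).trans (Finset.sum_le_sum fun x _ => Finset.sum_le_sum fun y _ => ?_)
        rw [Mt.sub_apply, ← norm_smul]
        refine le_of_eq ?_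
        congr 1
        simp only [E, a']
        rw [Mt.smul_apply, Mt.sum_apply]
        simp only [Mt.of_apply]
        rw [← Finset.sum_smul, smul_smul, sub_smul]
        congr 1
        · simp_rw [rr_pow]
        · by_cases h : wz s (orderOf z) i x = wz s (orderOf z) i y
          · rw [if_pos h, if_pos ((rr_eq_one z _ _).2 h), one_smul]
          · rw [if_neg h, if_neg (fun h1 => h ((rr_eq_one z _ _).1 h1)), zero_smul]
      · have h0 : (0 : ℝ) = ∑ x : s.S i, ∑ y : s.S i,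
            ‖(if rr z (s.wt i x) (s.wt i y) = 1 then (1 : ℂ) else 0) -
              (if rr z (s.wt i x) (s.wt i y) = 1 then 1 else 0)‖ * ‖a x y‖ := by simp
        rw [h0]
        refine tendsto_finsetSum _ fun x _ => tendsto_finsetSum _ fun y _ => ?_
        exact (((mean_tendsto _ (norm_rr z _ _)).sub_const _).norm).mul_const _
    have hle : ‖b - ι i a'‖ ≤ ‖b - ι i a‖ := by
      have h1 : Tendsto (fun N => ‖b - ι i a‖ + ‖E N - a'‖) atTop (𝓝 (‖b - ι i a‖ + 0)) :=
        hlim.const_add _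
      rw [add_zero] at h1
      refine ge_of_tendsto h1 ?_
      filter_upwards [eventually_gt_atTop 0] with N hN
      calc ‖b - ι i a'‖ = ‖(b - ι i (E N)) + ι i (E N - a')‖ := by rw [map_sub]; congr 1; abel
        _ ≤ ‖b - ι i (E N)‖ + ‖ι i (E N - a')‖ := norm_add_le _ _
        _ ≤ ‖b - ι i a‖ + ‖E N - a'‖ :=
          add_le_add (hE N hN) (NonUnitalStarAlgHom.norm_apply_le _ _)
    rw [dist_eq_norm] at hbc
    exact hle.trans_lt hbc

end Pool.Agent.Helper43.CR
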